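import Pool.Agent.K6.H69.SimpH

/-!
The complete theory of the hyperfinite II_1 factor is not simple.
-/

set_option autoImplicit false

open Pool.Agent.H504R3.S Pool.Agent.K6.H69

/-- The hyperfinite II_1 factor exists, and its complete theory is not simple. -/
theorem Pool.Agent.Results.MP_baa3fb_lc.NotSimple.result :
    (∃ R : Str, R.IsHyperfinite) ∧ ∀ R : Str, R.IsHyperfinite → ¬ IsSimple R :=
  ⟨exists_hyperfinite, not_simple⟩
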